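import Mathlib

/-!
# MP_cf8c5a_ag: definitions

`ℂⁿ = Fin n → ℂ` with Lebesgue measure `volume`.
-/

set_option autoImplicit false

open MeasureTheory Set Filter Topology Complex

namespace Pool.ARZ

/-- The product `L₀^{b₀} ⋯ L_{r-1}^{b_{r-1}}` of powers of linear forms on `ℂⁿ`. -/
noncomputable def prodForm {n r : ℕ} (L : Fin r → Module.Dual ℂ (Fin n → ℂ)) (b : Fin r → ℕ)
    (z : Fin n → ℂ) : ℂ :=
  ∏ i, (L i z) ^ (b i)

/-- The archimedean zeta function `Z_{f,φ}(s) = ∫_{ℂⁿ} |f(z)|^{2s} φ(z) dλ(z)`. -/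
noncomputable def zeta {n : ℕ} (f : (Fin n → ℂ) → ℂ) (φ : (Fin n → ℂ) → ℂ) (s : ℂ) : ℂ :=
  ∫ z, ((‖f z‖ : ℝ) : ℂ) ^ (2 * s) * φ z

/-- The hyperplanes `{L_i = 0}` form a central, essential and indecomposable arrangement of
pairwise distinct hyperplanes in `ℂⁿ`. -/
structure IsArrangement {n r : ℕ} (L : Fin r → Module.Dual ℂ (Fin n → ℂ)) : Prop where
  /-- every `L_i` is a nonzero linear form (so all hyperplanes pass through `0`: central) -/
  nonzero : ∀ i, L i ≠ 0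
  /-- the hyperplanes are pairwise distinct -/
  distinct : ∀ i j, LinearMap.ker (L i) = LinearMap.ker (L j) → i = j
  /-- the intersection of the hyperplanes is `{0}` -/
  essential : (⨅ i, LinearMap.ker (L i)) = ⊥
  /-- there is no decomposition `ℂⁿ = P ⊕ Q`, `P, Q ≠ 0`, such that every hyperplane contains
  `Q` (is of the form `H' × Q`) or contains `P` (is of the form `P × H''`) -/
  indecomposable : ∀ P Q : Submodule ℂ (Fin n → ℂ), IsCompl P Q → P ≠ ⊥ → Q ≠ ⊥ →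
    ∃ i, ¬ Q ≤ LinearMap.ker (L i) ∧ ¬ P ≤ LinearMap.ker (L i)

end Pool.ARZ
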