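import Pool.Agent.H23.ARZ.Defs

/-!
# MP_cf8c5a_ag: statements of the modules

`V = ℂ × ℂ × ℂ ∋ w = (x, y, z)`, so `x = w.1`, `y = w.2.1`, `z = w.2.2`.
-/

set_option autoImplicit false

open MeasureTheory Set Filter Topology Complex

namespace Pool.ARZ

/-- `ℂ³`, coordinates `x = w.1`, `y = w.2.1`, `z = w.2.2`. -/
abbrev V : Type := ℂ × ℂ × ℂ

/-- `f = x⁵ (x-z)³ y² (y-z) z`. -/
noncomputable def F (w : V) : ℂ :=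
  w.1 ^ 5 * (w.1 - w.2.2) ^ 3 * w.2.1 ^ 2 * (w.2.1 - w.2.2) * w.2.2

/-- `P = |f|^{2σ}`, `σ` real. -/
noncomputable def P (σ : ℝ) (w : V) : ℝ :=
  ‖w.1‖ ^ (10 * σ) * ‖w.1 - w.2.2‖ ^ (6 * σ) * ‖w.2.1‖ ^ (4 * σ) * ‖w.2.1 - w.2.2‖ ^ (2 * σ)
    * ‖w.2.2‖ ^ (2 * σ)

/-- `h = Re(x/z)`. -/
noncomputable def hh (w : V) : ℝ := (w.1 / w.2.2).re

/-- `k = Re(z/(y-z))`. -/
noncomputable def kk (w : V) : ℝ := (w.2.2 / (w.2.1 - w.2.2)).re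

/-- directional derivative of `φ` at `w` in the direction `v` (real Frechet derivative) -/
noncomputable def DD (φ : V → ℂ) (w v : V) : ℂ := fderiv ℝ φ w v

/-- `ψ = D_y φ[y]`. -/
noncomputable def psi (φ : V → ℂ) (w : V) : ℂ := DD φ w (0, w.2.1, 0)

/-- **Module DIL** (linear flows). `A_t (x,y,z) = (e^{at} x, e^{bt} y, e^{ct} z)` has real
Jacobian `e^{2 Re(a+b+c) t}`. If `Q` is continuous with `Q ∘ A_t = e^{κ t} Q` and `v` is `C¹` with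
compact support then `∫ Q (Dv[(ax,by,cz)] + (κ + 2 Re(a+b+c)) v) = 0`.
Proof: differentiate `∫ Q(w) v(A_t w) dw = e^{-(κ + 2 Re(a+b+c)) t} ∫ Q v` at `t = 0`. -/
def SDil : Prop := ∀ (a b c : ℂ) (κ : ℝ) (Q : V → ℝ), Continuous Q →
  (∀ (t : ℝ) (w : V), Q (exp (a * t) * w.1, exp (b * t) * w.2.1, exp (c * t) * w.2.2)
    = Real.exp (κ * t) * Q w) →
  ∀ v : V → ℂ, ContDiff ℝ 1 v → HasCompactSupport v →
    ∫ w, (Q w : ℂ) * (DD v w (a * w.1, b * w.2.1, c * w.2.2)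
      + ((κ + 2 * (a + b + c).re : ℝ) : ℂ) * v w) = 0

/-- **Module CHV** (the change of variables used in DIL). -/
def SChv : Prop := ∀ (α β γ : ℂ), α ≠ 0 → β ≠ 0 → γ ≠ 0 → ∀ g : V → ℂ,
  ∫ w : V, g (α * w.1, β * w.2.1, γ * w.2.2)
    = (((‖α‖ ^ 2 * ‖β‖ ^ 2 * ‖γ‖ ^ 2)⁻¹ : ℝ) : ℂ) * ∫ w : V, g w

/-- **Module CON**: for real `σ > 1` these four functions are continuous (although `1/z` and
`1/(y-z)` are not): use that `u ↦ ‖u‖^α / u` is continuous for `α > 1`. -/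
def SCon : Prop := ∀ σ : ℝ, 1 < σ →
  Continuous (fun w => P σ w) ∧ Continuous (fun w => P σ w * hh w) ∧
  Continuous (fun w => P σ w * (hh w * kk w)) ∧
  Continuous (fun w : V => ((P σ w : ℝ) : ℂ) * (w.1 * (w.1 - w.2.2) / w.2.2))

/-- **Module NUL**: `F ≠ 0` almost everywhere. -/
def SNul : Prop := ∀ᵐ w : V, F w ≠ 0

/-- **Module PFE**: `|F|^{2σ} = P σ`. -/
def SPfe : Prop := (∀ (σ : ℝ) (w : V), ((‖F w‖ : ℝ) : ℂ) ^ (2 * (σ : ℂ)) = ((P σ w : ℝ) : ℂ)) ∧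
  ∀ (σ : ℝ) (w : V), ‖F w‖ ^ (2 * σ) = P σ w

/-- **Module EID** (from DIL with `a = b = c = 1`,
`Q = P σ * hh = ‖x‖^{10σ}‖x-z‖^{6σ}‖y‖^{4σ}‖y-z‖^{2σ}‖z‖^{2σ-2} Re(x z̄)`, `κ = 24σ`). -/
def SEid : Prop := ∀ σ : ℝ, 1 < σ → ∀ φ : V → ℂ, ContDiff ℝ 1 φ → HasCompactSupport φ →
  ((24 * σ + 6 : ℝ) : ℂ) * ∫ w, ((P σ w * hh w : ℝ) : ℂ) * φ w
    = - ∫ w, ((P σ w * hh w : ℝ) : ℂ) * DD φ w w

/-- **Module WID** (from DIL with `a = c = 1`, `b = 0`,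
`Q = ‖x‖^{10σ}‖x-z‖^{6σ}‖y‖^{4σ}‖z‖^{2σ-2} Re(x z̄)`, `κ = 18σ`, `v = ‖y-z‖^{2σ} ψ`). -/
def SWid : Prop := ∀ σ : ℝ, 1 < σ → ∀ ψ : V → ℂ, ContDiff ℝ 1 ψ → HasCompactSupport ψ →
  ((18 * σ + 4 : ℝ) : ℂ) * ∫ w, ((P σ w * hh w : ℝ) : ℂ) * ψ w
    = ((2 * σ : ℝ) : ℂ) * (∫ w, ((P σ w * (hh w * kk w) : ℝ) : ℂ) * ψ w)
      - ∫ w, ((P σ w * hh w : ℝ) : ℂ) * DD ψ w (w.1, 0, w.2.2)

/-- **Module KID** (from DIL twice, `Q = ‖x‖^{10σ}‖y‖^{4σ}‖y-z‖^{2σ}‖z‖^{2σ-2}`: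
(1) `a = 1, b = c = 0`, `κ = 10σ`, `v = ‖x-z‖^{6σ} Re((x-z) z̄) φ`;
(2) `a = i, b = c = 0`, `κ = 0`, `v = ‖x-z‖^{6σ} Im((x-z) z̄) φ`; add the two). -/
def SKid : Prop := ∀ σ : ℝ, 1 < σ → ∀ φ : V → ℂ, ContDiff ℝ 1 φ → HasCompactSupport φ →
  ((10 * σ + 2 : ℝ) : ℂ) * ∫ w, ((P σ w : ℝ) : ℂ) * φ w
    = ((16 * σ + 4 : ℝ) : ℂ) * (∫ w, ((P σ w * hh w : ℝ) : ℂ) * φ w)
      + ∫ w, ((P σ w : ℝ) : ℂ) * DD φ w (w.1 * (w.1 - w.2.2) / w.2.2, 0, 0)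

/-- `G_A = D_xφ[x(x-z)/z] - (2/3) Re(x/z) (D_xφ[x] + D_zφ[z])` -/
noncomputable def GA (φ : V → ℂ) (w : V) : ℂ :=
  DD φ w (w.1 * (w.1 - w.2.2) / w.2.2, 0, 0) - (2 / 3) * (hh w : ℂ) * DD φ w (w.1, 0, w.2.2)

/-- `G_B = Re(x/z) Re(z/(y-z)) ψ` -/
noncomputable def GB (φ : V → ℂ) (w : V) : ℂ := (hh w : ℂ) * (kk w : ℂ) * psi φ w

/-- `G_C = Re(x/z) Dψ[(x,0,z)]` -/
noncomputable def GC (φ : V → ℂ) (w : V) : ℂ := (hh w : ℂ) * DD (psi φ) w (w.1, 0, w.2.2)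

/-- the parameter integral `∫ |f|^{2s} G` -/
noncomputable def J (G : V → ℂ) (s : ℂ) : ℂ := ∫ w, ((‖F w‖ : ℝ) : ℂ) ^ (2 * s) * G w

/-- the right hand side of the key identity -/
noncomputable def HH (φ : V → ℂ) (s : ℂ) : ℂ :=
  (18 * s + 4) * J (GA φ) s - (2 / 3) * (2 * s * J (GB φ) s - J (GC φ) s)

/-- **Module REA**: the key identity for real `σ > 1` (combine KID, EID, WID, CON;
`16σ+4 = (2/3)(24σ+6)` and `DD φ w w = DD φ w (x,0,z) + psi φ w`). -/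
def SRea : Prop := ∀ σ : ℝ, 1 < σ → ∀ φ : V → ℂ, ContDiff ℝ 2 φ → HasCompactSupport φ →
  (10 * (σ : ℂ) + 2) * (18 * (σ : ℂ) + 4) * J φ σ = HH φ σ

/-- **Module ANA**: holomorphy of the parameter integral. -/
def SAna : Prop := ∀ (G : V → ℂ) (σ₀ R : ℝ), AEStronglyMeasurable G volume →
  (∀ w, R < ‖w‖ → G w = 0) →
  Integrable (fun w => ‖F w‖ ^ (2 * σ₀) * ‖G w‖) volume →
  DifferentiableOn ℂ (J G) {s : ℂ | σ₀ < s.re}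

/-- `a(u) = |u|^{-q}` for `|u| ≤ R`, and `0` otherwise -/
noncomputable def aa (q R : ℝ) (u : ℂ) : ℝ := if ‖u‖ ≤ R then ‖u‖ ^ (-q) else 0

/-- the majorant -/
noncomputable def BB (q R : ℝ) (w : V) : ℝ :=
  (aa q R w.1 + aa q R (w.1 - w.2.2)) * (aa q R w.2.1 + aa q R (w.2.1 - w.2.2)) * aa q R w.2.2

/-- **Module INT**: the majorant is integrable for `q < 2`. -/
def SInt : Prop := ∀ q R : ℝ, q < 2 → 0 < R → Integrable (BB q R) volume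

/-- **Module TRA**: transfer of a part of the exponents from the block `x, x-z` to `z`
(`a = |x|`, `b = |x-z|`, `c = |z|`). -/
def STra : Prop := ∀ a b c p q ε : ℝ, 0 < a → 0 < b → 0 < c → c ≤ a + b → 0 ≤ ε → ε ≤ p → ε ≤ q →
  a ^ (-p) * b ^ (-q) ≤ 2 ^ ε * c ^ (-ε) * (a ^ (-(p + q - ε)) + b ^ (-(p + q - ε)))

/-- **Module BND**: for `w` in a ball and off the hyperplanes, all weights needed are
`≤ C · BB (19/10) (2R)`. `σ₀ = -13/50`. -/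
def SBnd : Prop := ∀ R : ℝ, 1 ≤ R → ∃ C : ℝ, 0 ≤ C ∧ ∀ w : V, ‖w‖ ≤ R → F w ≠ 0 →
  P (-13 / 50) w * (‖w.1‖ * ‖w.1 - w.2.2‖ / ‖w.2.2‖) ≤ C * BB (19 / 10) (2 * R) w ∧
  P (-13 / 50) w * (‖w.1‖ / ‖w.2.2‖ * ‖w.1‖) ≤ C * BB (19 / 10) (2 * R) w ∧
  P (-13 / 50) w * (‖w.1‖ / ‖w.2.2‖ * ‖w.2.2‖) ≤ C * BB (19 / 10) (2 * R) w ∧
  P (-13 / 50) w * (‖w.1‖ / ‖w.2.2‖ * (‖w.2.2‖ / ‖w.2.1 - w.2.2‖) * ‖w.2.1‖)
    ≤ C * BB (19 / 10) (2 * R) w ∧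
  P (-13 / 50) w * (‖w.1‖ / ‖w.2.2‖ * ‖w.2.1‖ * (‖w.1‖ + ‖w.2.2‖)) ≤ C * BB (19 / 10) (2 * R) w

/-- **Module GIN**: `|f|^{-13/25} G` is integrable for the three functions `G`
(from BND, INT; `‖D(psi φ)[(x,0,z)]‖ ≤ C ‖y‖ (‖x‖+‖z‖)`, as
`D(psi φ)(w)[(x,0,z)] = D²φ(w)[(x,0,z),(0,y,0)]`). -/
def SGin : Prop := ∀ φ : V → ℂ, ContDiff ℝ 2 φ → HasCompactSupport φ →
  ∀ G : V → ℂ, (G = GA φ ∨ G = GB φ ∨ G = GC φ) →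
    AEStronglyMeasurable G volume ∧
    Integrable (fun w => ‖F w‖ ^ (2 * (-13 / 50 : ℝ)) * ‖G w‖) volume

/-- **Module HOL**: `Z` and `H` are holomorphic (ANA, GIN). -/
def SHol : Prop := ∀ φ : V → ℂ, ContDiff ℝ 2 φ → HasCompactSupport φ →
  DifferentiableOn ℂ (J φ) {s : ℂ | 0 < s.re} ∧
  DifferentiableOn ℂ (HH φ) {s : ℂ | -13 / 50 < s.re}

/-- **Module IDT**: the key identity for all `s` with `Re s > 0` (identity theorem). -/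
def SIdt : Prop := ∀ φ : V → ℂ, ContDiff ℝ 2 φ → HasCompactSupport φ →
  ∀ s : ℂ, 0 < s.re → (10 * s + 2) * (18 * s + 4) * J φ s = HH φ s

/-- the five linear forms `x, x - z, y, y - z, z` on `ℂ³ = Fin 3 → ℂ`
(`x = v 0`, `y = v 1`, `z = v 2`) -/
noncomputable def LL : Fin 5 → Module.Dual ℂ (Fin 3 → ℂ) :=
  ![(LinearMap.proj 0 : (Fin 3 → ℂ) →ₗ[ℂ] ℂ),
    (LinearMap.proj 0 : (Fin 3 → ℂ) →ₗ[ℂ] ℂ) - (LinearMap.proj 2 : (Fin 3 → ℂ) →ₗ[ℂ] ℂ),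
    (LinearMap.proj 1 : (Fin 3 → ℂ) →ₗ[ℂ] ℂ),
    (LinearMap.proj 1 : (Fin 3 → ℂ) →ₗ[ℂ] ℂ) - (LinearMap.proj 2 : (Fin 3 → ℂ) →ₗ[ℂ] ℂ),
    (LinearMap.proj 2 : (Fin 3 → ℂ) →ₗ[ℂ] ℂ)]

/-- the multiplicities `5, 3, 2, 1, 1` -/
def bb : Fin 5 → ℕ := ![5, 3, 2, 1, 1]

/-- **Module TRN**: transfer from `Fin 3 → ℂ` to `V`. -/
def STrn : Prop := (∀ (φ : (Fin 3 → ℂ) → ℂ) (s : ℂ),
    zeta (prodForm LL bb) φ s = J (fun w => φ ![w.1, w.2.1, w.2.2]) s) ∧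
  ∀ φ : (Fin 3 → ℂ) → ℂ, ContDiff ℝ 2 φ → HasCompactSupport φ →
    ContDiff ℝ 2 (fun w : V => φ ![w.1, w.2.1, w.2.2]) ∧
    HasCompactSupport (fun w : V => φ ![w.1, w.2.1, w.2.2])

/-- **Module ARR**: the arrangement is central, essential, indecomposable. -/
def SArr : Prop := IsArrangement LL

/-- **Module ORD**: if `(10s+2)(18s+4) g(s) = H(s)` for `Re s > 0`, `H` holomorphic on
`Re s > -13/50`, and `g` is meromorphic on `ℂ`, then `g` has no pole at `-1/4`. -/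
def SOrd : Prop := ∀ g H : ℂ → ℂ, MeromorphicOn g univ →
  DifferentiableOn ℂ H {s : ℂ | -13 / 50 < s.re} →
  (∀ s : ℂ, 0 < s.re → (10 * s + 2) * (18 * s + 4) * g s = H s) →
  0 ≤ meromorphicOrderAt g (-1 / 4)

end Pool.ARZ
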